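import Mathlib
import Pool.Agent.H.MP_89bbb3_gt.Defs
import Pool.Agent.H.MP_89bbb3_gt.Bridge
import Pool.Agent.H.MP_89bbb3_gt.Curvature

/-!
Q1 has a negative answer: the metric `1/2 (dt dy + dy dt) + dx² + x⁴ dy²` on `ℝ³` has the nowhere
vanishing normal conformal Killing field `∂_t`, its Cotton tensor is nonzero where `x ≠ 0`, and no
point with nonzero Cotton tensor has a neighbourhood conformal to an open subset of `(ℝ³, g_h)`.
-/

namespace Pool.Agent.Results.MP_89bbb3_gt.NotModel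

open Pool.Agent.H.MP_89bbb3_gt
open scoped ContDiff

theorem result : ∃ (g : MatrixField) (k : (Fin 3 → ℝ) → Fin 3 → ℝ),
    IsLorentzian g ∧ IsConformalKilling g k ∧ IsNormal g k ∧ (∀ q, k q ≠ 0) ∧
    (∃ p c a b, cotton g c a b p ≠ 0) ∧
    ∀ p, (∃ c a b, cotton g c a b p ≠ 0) →
      ∀ h : ℝ → ℝ, ContDiff ℝ ∞ h → ¬ LocallyConformalAt g (modelMetric h) p := by
  refine ⟨exMetric, dt, lorentzian_ex, ckf_ex, normal_ex, ?_, ?_, ?_⟩
  · intro q hq
    have := congrFun hq 2
    simp [dt] at this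
  · refine ⟨fun _ => 1, 1, 0, 1, ?_⟩
    rw [cotton_ex]
    simp
  · intro p hp h hh
    exact not_conformal h hh p (cotton_ne p hp)

end Pool.Agent.Results.MP_89bbb3_gt.NotModel
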